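import Pool.Agent.Helper32K9.QA.Th5

/-!
# The number of prime tuples for almost all polynomials in a residue class
-/

set_option autoImplicit false

namespace Pool.Agent.Helper32K9.QB

open Finset Filter Pool.Agent.Helper82K9.PR Pool.Agent.Helper32K9.QA

/-- the weight of the prime values at the points -/
noncomputable def Fr {r d : ℕ} (L : ℝ) (t : Fin r → ℕ) (v : Fin (d + 1) → ℤ) : ℝ := ∏ a, om L (pv v (t a))

/-- the rough weight of the values at the points -/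
noncomputable def Rr {r d : ℕ} (z : ℕ) (t : Fin r → ℕ) (v : Fin (d + 1) → ℤ) : ℝ :=
  ∏ a, MM (primorial z) (pv v (t a))

/-- the polynomials in a residue class -/
noncomputable def Cl (d H W : ℕ) (P : Fin (d + 1) → ℤ) : Finset (Fin (d + 1) → ℤ) :=
  (Bx d H).filter (fun v => ∀ i, (W : ℤ) ∣ v i - P i)

lemma Fr_nonneg {r d : ℕ} {L : ℝ} (hL : 0 ≤ L) (t : Fin r → ℕ) (v : Fin (d + 1) → ℤ) : 0 ≤ Fr L t v :=
  prod_nonneg fun _ _ => om_nonneg hL _

lemma Fr_le {r d : ℕ} {L : ℝ} (hL : 0 ≤ L) (t : Fin r → ℕ) (v : Fin (d + 1) → ℤ) : Fr L t v ≤ L ^ r := by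
  unfold Fr
  calc ∏ a, om L (pv v (t a)) ≤ ∏ _a : Fin r, L :=
        Finset.prod_le_prod (fun _ _ => om_nonneg hL _) (fun _ _ => om_le hL _)
    _ = L ^ r := by simp

lemma Rr_nonneg {r d : ℕ} (z : ℕ) (t : Fin r → ℕ) (v : Fin (d + 1) → ℤ) : 0 ≤ Rr z t v :=
  prod_nonneg fun _ _ => MM_nonneg _ _

lemma Rr_le {r d : ℕ} (z : ℕ) (hz : 1 ≤ z) (t : Fin r → ℕ) (v : Fin (d + 1) → ℤ) : Rr z t v ≤ (z : ℝ) ^ r := by
  unfold Rr
  calc ∏ a, MM (primorial z) (pv v (t a)) ≤ ∏ _a : Fin r, (z : ℝ) :=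
        Finset.prod_le_prod (fun _ _ => MM_nonneg _ _) (fun a _ => (MM_le_Cz z _).trans (Cz_le_z z hz))
    _ = _ := by simp

lemma pv_class {d : ℕ} (W : ℕ) (v P : Fin (d + 1) → ℤ) (h : ∀ i, (W : ℤ) ∣ v i - P i) (t : ℕ) :
    ∃ k : ℤ, pv v t = pv P t + k * W := by
  have h1 : (W : ℤ) ∣ pv v t - pv P t := by
    unfold pv
    rw [← sum_sub_distrib]
    apply dvd_sum
    intro i _
    rw [← sub_mul]
    exact (h i).mul_right _
  obtain ⟨k, hk⟩ := h1
  exact ⟨k, by linarith⟩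

lemma MM_class {d : ℕ} (W : ℕ) (v P : Fin (d + 1) → ℤ) (h : ∀ i, (W : ℤ) ∣ v i - P i) (t : ℕ) :
    MM W (pv v t) = MM W (pv P t) := by
  obtain ⟨k, hk⟩ := pv_class W v P h t
  unfold MM
  rw [hk, Int.gcd_add_mul_right_left]

lemma Rr_class {r d : ℕ} (z : ℕ) (t : Fin r → ℕ) (v P : Fin (d + 1) → ℤ)
    (h : ∀ i, ((primorial z : ℕ) : ℤ) ∣ v i - P i) : Rr z t v = Rr z t P :=
  prod_congr rfl fun a _ => MM_class _ v P h (t a)

/-- the size of a class -/
lemma class_card (d H W : ℕ) (hW : 1 ≤ W) (hWH : 2 * W ≤ 2 * H + 1) (P : Fin (d + 1) → ℤ) :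
    ((Bx d H).card : ℝ) ≤ (2 * (W : ℝ)) ^ (d + 1) * (Cl d H W P).card := by
  classical
  have e1 : Cl d H W P = Fintype.piFinset (fun i => (Icc (-(H : ℤ)) H).filter (fun x => (W : ℤ) ∣ x - P i)) := by
    ext v
    unfold Cl Bx
    rw [mem_filter, Fintype.mem_piFinset, Fintype.mem_piFinset]
    constructor
    · rintro ⟨h1, h2⟩ i
      exact mem_filter.2 ⟨h1 i, h2 i⟩
    · intro h
      exact ⟨fun i => (mem_filter.1 (h i)).1, fun i => (mem_filter.1 (h i)).2⟩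
  have hWz : (0 : ℤ) < W := by exact_mod_cast hW
  have hone : ∀ a : ℤ, ((2 * H + 1 : ℕ) : ℝ) ≤ 2 * (W : ℝ) * (((Icc (-(H : ℤ)) H).filter (fun x => (W : ℤ) ∣ x - a)).card : ℝ) := by
    intro a
    -- the elements `b + W k`, `k < q`
    set b : ℤ := -(H : ℤ) + (a + H) % W with hb
    set q : ℕ := (2 * H + 1) / W with hq
    have hb0 : 0 ≤ (a + (H : ℤ)) % W := Int.emod_nonneg _ hWz.ne'
    have hb1 : (a + (H : ℤ)) % W < W := Int.emod_lt_of_pos _ hWz
    have hsub : (range q).image (fun k : ℕ => b + W * (k : ℤ)) ⊆ (Icc (-(H : ℤ)) H).filter (fun x => (W : ℤ) ∣ x - a) := by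
      intro x hx
      rw [mem_image] at hx
      obtain ⟨k, hk, rfl⟩ := hx
      rw [mem_range] at hk
      rw [mem_filter, mem_Icc]
      have hk1 : W * (k + 1) ≤ 2 * H + 1 := by
        calc W * (k + 1) ≤ W * q := Nat.mul_le_mul_left _ hk
          _ ≤ 2 * H + 1 := Nat.mul_div_le _ _
      have hk2 : (W : ℤ) * (k + 1) ≤ 2 * H + 1 := by exact_mod_cast hk1
      have hk0 : 0 ≤ (W : ℤ) * k := by positivity
      refine ⟨⟨by linarith, by linarith⟩, ?_⟩
      have h3 : b + (W : ℤ) * k - a = ((a + H) % W - (a + H)) + W * k := by rw [hb]; ring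
      rw [h3]
      apply dvd_add _ (dvd_mul_right _ _)
      have h4 := Int.emod_add_mul_ediv (a + (H : ℤ)) W
      exact ⟨-((a + H) / W), by linarith⟩
    have hcard := card_le_card hsub
    rw [card_image_of_injective _ (by
      intro x y hxy
      have h5 : (W : ℤ) * x = W * y := by
        have : b + (W : ℤ) * x = b + W * y := hxy
        linarith
      exact_mod_cast mul_left_cancel₀ hWz.ne' h5), card_range] at hcard
    have hq1 : 2 * H + 1 < W * (q + 1) := Nat.lt_mul_div_succ _ hW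
    have hq2 : 1 ≤ q := (Nat.le_div_iff_mul_le hW).2 (by omega)
    have h6 : 2 * H + 1 ≤ 2 * W * q := by
      calc 2 * H + 1 ≤ W * (q + 1) := hq1.le
        _ ≤ W * (q + q) := Nat.mul_le_mul_left _ (by omega)
        _ = 2 * W * q := by ring
    calc ((2 * H + 1 : ℕ) : ℝ) ≤ ((2 * W * q : ℕ) : ℝ) := by exact_mod_cast h6
      _ = 2 * (W : ℝ) * (q : ℝ) := by push_cast; ring
      _ ≤ _ := by
        apply mul_le_mul_of_nonneg_left _ (by positivity)
        exact_mod_cast hcard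
  rw [card_Bx, e1, Fintype.card_piFinset]
  push_cast
  calc (2 * (H : ℝ) + 1) ^ (d + 1) = ∏ _i : Fin (d + 1), ((2 * H + 1 : ℕ) : ℝ) := by simp
    _ ≤ ∏ i : Fin (d + 1), (2 * (W : ℝ) * (((Icc (-(H : ℤ)) H).filter (fun x => (W : ℤ) ∣ x - P i)).card : ℝ)) :=
        Finset.prod_le_prod (fun _ _ => by positivity) (fun i _ => hone (P i))
    _ = _ := by
        rw [prod_mul_distrib]
        simp

/-- the comparison -/
lemma cmpG (d B T' A : ℕ) (hT : 3 ≤ T') (ρ : ℝ) (hρ0 : 0 < ρ) (hρ1 : ρ ≤ 1 / 2)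
    (hTρ : (d + 1 : ℝ) ^ 2 * 24 * (B : ℝ) / ρ ≤ T') : ∃ H₀ : ℕ, ∀ H : ℕ, H₀ ≤ H →
    ∀ (ι : Type) [Fintype ι] [DecidableEq ι], Fintype.card ι ≤ d + 1 → ∀ t : ι → ℕ, Function.Injective t →
    (∀ a, 1 ≤ t a ∧ (t a : ℝ) ≤ Real.log H ^ B) → ∀ θ : (Fin (d + 1) → ℤ) → ℝ, (∀ v, 0 ≤ θ v) →
    (∀ v, θ v ≤ 1) → (∀ v ρ, θ (v + ((primorial (zz T' H) : ℕ) : ℤ) • ρ) = θ v) → ∀ s : Finset ι,
    |∑ v ∈ Bx d H, (∏ a, if a ∈ s then om (Real.log H) (pv v (t a)) else MM (primorial (zz T' H)) (pv v (t a))) * θ v -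
      ∑ v ∈ Bx d H, (∏ a, MM (primorial (zz T' H)) (pv v (t a))) * θ v| ≤
      ρ * ∑ v ∈ Bx d H, (∏ a, MM (primorial (zz T' H)) (pv v (t a))) * θ v + (Bx d H).card / Real.log H ^ A := by
  obtain ⟨H2, hH2, hcomb⟩ := comb' d B (4 * T') A 0 (ρ / 2) (by positivity)
  obtain ⟨H3, hpar⟩ := params T' hT
  refine ⟨max H2 H3, fun H hH ι _ _ hcard t hinj ht θ hθ0 hθ1 hθi s => ?_⟩
  obtain ⟨hL1, hll, hz3, hzT, hzL, hW⟩ := hpar H ((le_max_right _ _).trans hH)
  set L := Real.log H with hL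
  set z := zz T' H with hz
  have hX1 : 1 ≤ ⌊L ^ B⌋₊ := by
    rw [Nat.one_le_floor_iff]
    exact one_le_pow₀ hL1
  have h := hcomb H ((le_max_left _ _).trans hH) ι hcard z ⌊L ^ B⌋₊ hW hX1
    (Nat.floor_le (by positivity)) t hinj (fun a => ⟨(ht a).1, Nat.le_floor (ht a).2⟩) (fun _ => 0) (by
      intro a
      simp) θ hθ0 hθ1 hθi s
  simp only [add_zero] at h
  unfold PA at h
  have hT00 : 0 ≤ ∑ v ∈ Bx d H, (∏ a, MM (primorial z) (pv v (t a))) * θ v :=
    sum_nonneg fun v _ => mul_nonneg (prod_nonneg fun a _ => MM_nonneg _ _) (hθ0 v)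
  have hSg : Sg z t ≤ ρ / 24 := by
    have h1 := Sg_log B L hL1 z hz3 t hinj (fun a => (ht a).2)
    refine h1.trans ?_
    have hTr : (3 : ℝ) ≤ T' := by exact_mod_cast hT
    have hzr : (0 : ℝ) < z := by
      have : (3 : ℝ) ≤ z := by exact_mod_cast hz3
      linarith
    rw [div_le_iff₀ hzr]
    have hc6 : (Fintype.card ι : ℝ) ≤ (d : ℝ) + 1 := by exact_mod_cast hcard
    have hc2 : (Fintype.card ι : ℝ) ^ 2 ≤ ((d : ℝ) + 1) ^ 2 := pow_le_pow_left₀ (Nat.cast_nonneg _) hc6 2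
    have hB' : ((d : ℝ) + 1) ^ 2 * (B : ℝ) ≤ ρ / 24 * T' := by
      rw [div_le_iff₀ hρ0] at hTρ
      linarith
    calc (Fintype.card ι : ℝ) ^ 2 * B * Real.log L ≤ ((d : ℝ) + 1) ^ 2 * B * Real.log L := by gcongr
      _ ≤ ρ / 24 * T' * Real.log L := by gcongr
      _ = ρ / 24 * (T' * Real.log L) := by ring
      _ ≤ ρ / 24 * z := by gcongr
  have hSg0 : 0 ≤ Sg z t := sum_nonneg fun a _ => sg_nonneg z _
  have hexp : Real.exp (2 * Sg z t) - 1 ≤ ρ / 6 := by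
    have h2 := Real.abs_exp_sub_one_le (x := 2 * Sg z t) (by
      rw [abs_of_nonneg (by positivity)]
      linarith)
    rw [abs_of_nonneg (by positivity : 0 ≤ 2 * Sg z t)] at h2
    have := le_abs_self (Real.exp (2 * Sg z t) - 1)
    linarith
  refine h.trans ?_
  apply add_le_add_left
  apply mul_le_mul_of_nonneg_right _ hT00
  linarith

/-- the products over the points of two tuples -/
lemma two_prod {r d : ℕ} (L : ℝ) (z : ℕ) (t s : Fin r → ℕ) (v : Fin (d + 1) → ℤ) (P Q : Prop) [Decidable P] [Decidable Q] :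
    ∏ a : Fin r ⊕ Fin r, (if a ∈ (univ.filter (fun a : Fin r ⊕ Fin r => (a.isLeft ∧ P) ∨ (¬ a.isLeft ∧ Q)))
      then om L (pv v (Sum.elim t s a)) else MM (primorial z) (pv v (Sum.elim t s a))) =
    (if P then Fr L t v else Rr z t v) * (if Q then Fr L s v else Rr z s v) := by
  rw [Fintype.prod_sum_type]
  congr 1
  · by_cases hP : P
    · rw [if_pos hP]
      unfold Fr
      apply prod_congr rfl
      intro a _
      rw [if_pos (by simp [hP])]
      rfl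
    · rw [if_neg hP]
      unfold Rr
      apply prod_congr rfl
      intro a _
      rw [if_neg (by simp [hP])]
      rfl
  · by_cases hQ : Q
    · rw [if_pos hQ]
      unfold Fr
      apply prod_congr rfl
      intro a _
      rw [if_pos (by simp [hQ])]
      rfl
    · rw [if_neg hQ]
      unfold Rr
      apply prod_congr rfl
      intro a _
      rw [if_neg (by simp [hQ])]
      rfl

end Pool.Agent.Helper32K9.QB
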