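import Pool.Agent.Helper32K9.QB.Gen

/-!
# The number of prime tuples for almost all polynomials in a residue class: the theorem
-/

set_option autoImplicit false

namespace Pool.Agent.Helper32K9.QB

open Finset Filter Pool.Agent.Helper82K9.PR Pool.Agent.Helper32K9.QA

/-- no common point -/
def Apart {r : ℕ} (t s : Fin r → ℕ) : Prop := ∀ i j, t i ≠ s j

instance {r : ℕ} (t s : Fin r → ℕ) : Decidable (Apart t s) := by
  unfold Apart
  infer_instance

lemma elim_inj {r : ℕ} (t s : Fin r → ℕ) (ht : Function.Injective t) (hs : Function.Injective s) (h : Apart t s) :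
    Function.Injective (Sum.elim t s) := by
  rintro (a | a) (b | b) hab
  · exact congrArg Sum.inl (ht hab)
  · exact absurd hab (h a b)
  · exact absurd hab.symm (h b a)
  · exact congrArg Sum.inr (hs hab)

theorem gen (r d B D : ℕ) (hd : 2 * r ≤ d + 1) (ε : ℝ) (hε : 0 < ε) : ∃ T₀ : ℕ, ∀ T' : ℕ, T₀ ≤ T' → ∃ A : ℕ,
    ∀ H : ℕ, A ≤ H → ∀ (α : Type) (M : Finset α) (t : α → Fin r → ℕ),
    (∀ m ∈ M, Function.Injective (t m) ∧ ∀ a, 1 ≤ t m a ∧ (t m a : ℝ) ≤ Real.log H ^ B) →
    (∀ m ∈ M, (M.filter (fun m' => ¬ Apart (t m) (t m'))).card ≤ D) → A * Real.log H ^ r ≤ M.card →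
    ∀ c : α → ℝ, (∀ m, |c m| ≤ 1) → ∀ P : Fin (d + 1) → ℤ,
    (((Cl d H (primorial (zz T' H)) P).filter (fun v => ¬ |∑ m ∈ M, c m * (Fr (Real.log H) (t m) v - Rr (zz T' H) (t m) P)| ≤
      ε * (M.card + ∑ m ∈ M, |c m| * Rr (zz T' H) (t m) P))).card : ℝ) ≤ ε * (Cl d H (primorial (zz T' H)) P).card := by
  set ρ : ℝ := min (ε ^ 3 / 12) (1 / 2) with hρ
  have hρ0 : 0 < ρ := lt_min (by positivity) (by norm_num)
  have hρ1 : ρ ≤ 1 / 2 := min_le_right _ _
  have hρ2 : ρ ≤ ε ^ 3 / 12 := min_le_left _ _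
  obtain ⟨T1, hT1⟩ := exists_nat_ge ((d + 1 : ℝ) ^ 2 * 24 * (B : ℝ) / ρ)
  refine ⟨max T1 3, fun T' hT' => ?_⟩
  have hT3 : 3 ≤ T' := (le_max_right _ _).trans hT'
  obtain ⟨H2, hcmp⟩ := cmpG d B T' ((4 * T' + 1) * (d + 1) + 1) hT3 ρ hρ0 hρ1
    (hT1.trans (by exact_mod_cast (le_max_left _ _).trans hT'))
  obtain ⟨H3, hpar⟩ := params T' hT3
  have hlog : Tendsto (fun n : ℕ => Real.log n) atTop atTop := Real.tendsto_log_atTop.comp tendsto_natCast_atTop_atTop
  have e6 := (tendsto_natCast_atTop_atTop (R := ℝ)).eventually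
    ((Real.isLittleO_pow_log_id_atTop (n := 4 * T')).def (show (0 : ℝ) < 1 by norm_num))
  obtain ⟨H4, h4⟩ := ((hlog.eventually_ge_atTop (max 2 (12 / ε ^ 3))).and e6).exists_forall_of_atTop
  obtain ⟨A1, hA1⟩ := exists_nat_ge (24 * (D : ℝ) / ε ^ 3)
  refine ⟨max (max H2 (max H3 H4)) (max A1 1), fun H hH α M t ht hD hM c hc P => ?_⟩
  have g0 : max H2 (max H3 H4) ≤ H := (le_max_left _ _).trans hH
  have g2 : H2 ≤ H := (le_max_left _ _).trans g0
  have g3 : H3 ≤ H := (le_max_left _ _).trans ((le_max_right _ _).trans g0)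
  have g4 : H4 ≤ H := (le_max_right _ _).trans ((le_max_right _ _).trans g0)
  obtain ⟨hL1, hll, hz3, hzT, hzL, hW⟩ := hpar H g3
  obtain ⟨hLε', hLH⟩ := h4 H g4
  have hcmp' := hcmp H g2
  set L := Real.log H with hL
  have hL2 : 2 ≤ L := (le_max_left _ _).trans hLε'
  have hLε : 12 / ε ^ 3 ≤ L := (le_max_right _ _).trans hLε'
  have hL0 : 0 < L := by linarith
  set z := zz T' H with hz
  set W := primorial z with hWdef
  have hW1 : 1 ≤ W := primorial_pos z
  set N : ℝ := ((Bx d H).card : ℝ) with hN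
  have hN0 : 0 ≤ N := Nat.cast_nonneg _
  set C := Cl d H W P with hC
  set N0 : ℝ := (C.card : ℝ) with hN0def
  have hN00 : 0 ≤ N0 := Nat.cast_nonneg _
  -- the size of the class
  have hWH : 2 * W ≤ 2 * H + 1 := by
    have h1 : L ^ (4 * T') ≤ H := by
      simp only [id, Real.norm_eq_abs] at hLH
      rw [abs_of_nonneg (by positivity), abs_of_nonneg (Nat.cast_nonneg _)] at hLH
      linarith
    have h2 : (W : ℝ) ≤ H := hW.trans h1
    have h3 : W ≤ H := by exact_mod_cast h2
    omega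
  have hNN0 : N / L ^ ((4 * T' + 1) * (d + 1) + 1) ≤ N0 / L := by
    have h1 := class_card d H W hW1 hWH P
    have h2 : (2 * (W : ℝ)) ^ (d + 1) ≤ L ^ ((4 * T' + 1) * (d + 1)) := by
      rw [pow_mul]
      apply pow_le_pow_left₀ (by positivity)
      rw [pow_succ, mul_comm]
      gcongr
    rw [div_le_div_iff₀ (by positivity) hL0]
    calc N * L ≤ ((2 * (W : ℝ)) ^ (d + 1) * N0) * L := by gcongr
      _ ≤ (L ^ ((4 * T' + 1) * (d + 1)) * N0) * L := by gcongr
      _ = N0 * L ^ ((4 * T' + 1) * (d + 1) + 1) := by rw [pow_succ]; ring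
  -- the indicator of the class
  set θ : (Fin (d + 1) → ℤ) → ℝ := fun v => if (∀ i, (W : ℤ) ∣ v i - P i) then 1 else 0 with hθ
  have hθ0 : ∀ v, 0 ≤ θ v := fun v => by simp only [hθ]; split_ifs <;> norm_num
  have hθ1 : ∀ v, θ v ≤ 1 := fun v => by simp only [hθ]; split_ifs <;> norm_num
  have hθi : ∀ v ρ, θ (v + ((W : ℕ) : ℤ) • ρ) = θ v := by
    intro v r'
    simp only [hθ]
    congr 1
    apply propext
    apply forall_congr'
    intro i
    have h1 : (v + (W : ℤ) • r') i - P i = (v i - P i) + W * r' i := by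
      simp only [Pi.add_apply, Pi.smul_apply, smul_eq_mul]; ring
    rw [h1, Int.dvd_add_left (dvd_mul_right _ _)]
  have hθsum : ∀ G : (Fin (d + 1) → ℤ) → ℝ, ∑ v ∈ Bx d H, G v * θ v = ∑ v ∈ C, G v := by
    intro G
    rw [hC]
    unfold Cl
    rw [sum_filter]
    apply sum_congr rfl
    intro v _
    simp only [hθ]
    split_ifs <;> ring
  set R : α → ℝ := fun m => Rr z (t m) P with hR
  have hR0 : ∀ m, 0 ≤ R m := fun m => Rr_nonneg _ _ _
  have hRv : ∀ m, ∀ v ∈ C, Rr z (t m) v = R m := by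
    intro m v hv
    exact Rr_class z (t m) v P (mem_filter.1 hv).2
  have hRL : ∀ m, R m ≤ L ^ r := fun m => (Rr_le z (by omega) _ _).trans (pow_le_pow_left₀ (Nat.cast_nonneg _) hzL r)
  set F : α → (Fin (d + 1) → ℤ) → ℝ := fun m v => Fr L (t m) v with hF
  have hF0 : ∀ m v, 0 ≤ F m v := fun m v => Fr_nonneg hL0.le _ _
  have hFL : ∀ m v, F m v ≤ L ^ r := fun m v => Fr_le hL0.le _ _
  set Y : α → α → ℝ := fun m m' => ∑ v ∈ C, (F m v - R m) * (F m' v - R m') with hY
  -- good pairs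
  have hgood : ∀ m ∈ M, ∀ m' ∈ M, Apart (t m) (t m') → |Y m m'| ≤ 3 * (ρ * (R m * R m' * N0) + N0 / L) := by
    intro m hm m' hm' hap
    have hinj := elim_inj (t m) (t m') (ht m hm).1 (ht m' hm').1 hap
    have hbd : ∀ a, 1 ≤ Sum.elim (t m) (t m') a ∧ ((Sum.elim (t m) (t m') a : ℕ) : ℝ) ≤ L ^ B := by
      intro a
      rcases a with a | a
      · exact (ht m hm).2 a
      · exact (ht m' hm').2 a
    have hX0 : ∑ v ∈ Bx d H, (∏ a, MM W (pv v (Sum.elim (t m) (t m') a))) * θ v = R m * R m' * N0 := by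
      rw [hθsum]
      have : ∀ v ∈ C, ∏ a, MM W (pv v (Sum.elim (t m) (t m') a)) = R m * R m' := by
        intro v hv
        rw [Fintype.prod_sum_type, ← hRv m v hv, ← hRv m' v hv]
        rfl
      rw [sum_congr rfl this, sum_const, nsmul_eq_mul, mul_comm]
    have key : ∀ (P' Q' : Prop) [Decidable P'] [Decidable Q'],
        |∑ v ∈ C, ((if P' then F m v else R m) * (if Q' then F m' v else R m')) - R m * R m' * N0| ≤
          ρ * (R m * R m' * N0) + N0 / L := by
      intro P' Q' _ _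
      have h1 := hcmp' (Fin r ⊕ Fin r) (by
        rw [Fintype.card_sum, Fintype.card_fin]; omega) (Sum.elim (t m) (t m')) hinj hbd θ hθ0 hθ1 hθi
        (univ.filter (fun a : Fin r ⊕ Fin r => (a.isLeft ∧ P') ∨ (¬ a.isLeft ∧ Q')))
      have hX0' := hX0
      simp only [hWdef] at hX0'
      simp only [hWdef, two_prod] at h1
      rw [hX0', hθsum] at h1
      have h2 : ∑ v ∈ C, ((if P' then Fr L (t m) v else Rr z (t m) v) * (if Q' then Fr L (t m') v else Rr z (t m') v)) =
          ∑ v ∈ C, ((if P' then F m v else R m) * (if Q' then F m' v else R m')) := by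
        apply sum_congr rfl
        intro v hv
        rw [hRv m v hv, hRv m' v hv]
      rw [h2] at h1
      exact h1.trans (add_le_add_right hNN0 _)
    have k1 := key True True
    have k2 := key True False
    have k3 := key False True
    simp only [if_true, if_false] at k1 k2 k3
    have e1 : Y m m' = (∑ v ∈ C, F m v * F m' v - R m * R m' * N0) - (∑ v ∈ C, F m v * R m' - R m * R m' * N0) -
        (∑ v ∈ C, R m * F m' v - R m * R m' * N0) := by
      have e2 : R m * R m' * N0 = ∑ _v ∈ C, R m * R m' := by rw [sum_const, nsmul_eq_mul, mul_comm]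
      simp only [hY]
      rw [e2, ← sum_sub_distrib, ← sum_sub_distrib, ← sum_sub_distrib, ← sum_sub_distrib, ← sum_sub_distrib]
      apply sum_congr rfl
      intro v _
      ring
    rw [e1]
    calc |(∑ v ∈ C, F m v * F m' v - R m * R m' * N0) - (∑ v ∈ C, F m v * R m' - R m * R m' * N0) -
        (∑ v ∈ C, R m * F m' v - R m * R m' * N0)| ≤ |∑ v ∈ C, F m v * F m' v - R m * R m' * N0| +
        |∑ v ∈ C, F m v * R m' - R m * R m' * N0| + |∑ v ∈ C, R m * F m' v - R m * R m' * N0| :=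
          (abs_sub _ _).trans (add_le_add_left (abs_sub _ _) _)
      _ ≤ _ := by linarith
  -- bad pairs
  have hbad : ∀ m ∈ M, ∀ m' ∈ M, |Y m m'| ≤ 2 * L ^ r * (3 * (R m * N0) + N0 / L) := by
    intro m hm m' hm'
    have hRs : ∑ v ∈ C, F m v ≤ 3 / 2 * (R m * N0) + N0 / L := by
      have h1 := hcmp' (Fin r) (by
        rw [Fintype.card_fin]; omega) (t m) (ht m hm).1 (ht m hm).2 θ hθ0 hθ1 hθi univ
      simp only [mem_univ, if_true] at h1
      rw [hθsum, hθsum] at h1
      have h2 : ∑ v ∈ C, ∏ a, MM W (pv v (t m a)) = R m * N0 := by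
        have : ∀ v ∈ C, ∏ a, MM W (pv v (t m a)) = R m := fun v hv => hRv m v hv
        rw [sum_congr rfl this, sum_const, nsmul_eq_mul, mul_comm]
      rw [h2] at h1
      have h3 := (abs_le.1 h1).2
      have h4 : 0 ≤ R m * N0 := mul_nonneg (hR0 m) hN00
      have h5 : ρ * (R m * N0) ≤ 1 / 2 * (R m * N0) := mul_le_mul_of_nonneg_right hρ1 h4
      have h6 : ∑ v ∈ C, F m v = ∑ v ∈ C, ∏ a, om L (pv v (t m a)) := rfl
      rw [h6]
      linarith
    calc |Y m m'| ≤ ∑ v ∈ C, |(F m v - R m) * (F m' v - R m')| := abs_sum_le_sum_abs _ _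
      _ ≤ ∑ v ∈ C, (F m v + R m) * (2 * L ^ r) := by
          apply sum_le_sum
          intro v _
          rw [abs_mul]
          have a1 : |F m v - R m| ≤ F m v + R m := by
            rw [abs_le]
            have := hF0 m v
            have := hR0 m
            constructor <;> linarith
          have a2 : |F m' v - R m'| ≤ 2 * L ^ r := by
            rw [abs_le]
            have := hF0 m' v
            have := hR0 m'
            have := hFL m' v
            have := hRL m'
            constructor <;> linarith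
          exact mul_le_mul a1 a2 (abs_nonneg _) ((abs_nonneg _).trans a1)
      _ = (∑ v ∈ C, F m v + R m * N0) * (2 * L ^ r) := by
          rw [← sum_mul, sum_add_distrib, sum_const, nsmul_eq_mul, mul_comm (R m)]
      _ ≤ (3 / 2 * (R m * N0) + N0 / L + R m * N0) * (2 * L ^ r) := by
          apply mul_le_mul_of_nonneg_right _ (by positivity)
          linarith
      _ ≤ 2 * L ^ r * (3 * (R m * N0) + N0 / L) := by
          have a5 : 0 ≤ (1 / 2 * (R m * N0)) * (2 * L ^ r) := by
            have := mul_nonneg (hR0 m) hN00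
            positivity
          linarith
  -- the sum over the pairs
  set G : (Fin (d + 1) → ℤ) → ℝ := fun v => ∑ m ∈ M, c m * (F m v - R m) with hG
  set Q : ℝ := ∑ m ∈ M, |c m| * R m with hQ
  have hQ0 : 0 ≤ Q := sum_nonneg fun m _ => mul_nonneg (abs_nonneg _) (hR0 m)
  set n : ℝ := (M.card : ℝ) with hn
  have hn1 : 1 ≤ n := by
    refine le_trans ?_ hM
    have a1 : (1 : ℝ) ≤ ((max (max H2 (max H3 H4)) (max A1 1) : ℕ) : ℝ) := by
      exact_mod_cast (le_max_right _ _).trans (le_max_right _ _)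
    have a2 : 1 ≤ L ^ r := one_le_pow₀ (by linarith)
    nlinarith
  have hAn : (24 * (D : ℝ) / ε ^ 3) * L ^ r ≤ n := by
    refine le_trans ?_ hM
    apply mul_le_mul_of_nonneg_right _ (by positivity)
    refine hA1.trans ?_
    exact_mod_cast (le_max_left _ _).trans (le_max_right _ _)
  have hexpand : ∑ v ∈ C, G v ^ 2 = ∑ m ∈ M, ∑ m' ∈ M, (c m * c m') * Y m m' := by
    have e1 : ∀ v ∈ C, G v ^ 2 = ∑ m ∈ M, ∑ m' ∈ M, (c m * c m') * ((F m v - R m) * (F m' v - R m')) := by
      intro v _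
      simp only [hG]
      rw [sq, sum_mul_sum]
      apply sum_congr rfl
      intro m _
      apply sum_congr rfl
      intro m' _
      ring
    rw [sum_congr rfl e1, sum_comm]
    apply sum_congr rfl
    intro m _
    rw [sum_comm]
    apply sum_congr rfl
    intro m' _
    rw [← mul_sum]
  have hrow : ∀ m ∈ M, ∑ m' ∈ M, (c m * c m') * Y m m' ≤
      3 * ρ * N0 * ((|c m| * R m) * Q) + n * (3 * (N0 / L)) + D * (2 * L ^ r * (3 * ((|c m| * R m) * N0) + N0 / L)) := by
    intro m hm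
    rw [← sum_filter_add_sum_filter_not M (fun m' => Apart (t m) (t m')), add_assoc]
    have hb : ∀ m', (c m * c m') * Y m m' ≤ |c m| * |c m'| * |Y m m'| := fun m' => by
      calc (c m * c m') * Y m m' ≤ |(c m * c m') * Y m m'| := le_abs_self _
        _ = _ := by rw [abs_mul, abs_mul]
    have hpos : 0 ≤ 3 * (N0 / L) := by positivity
    have e2 : 3 * ρ * N0 * ((|c m| * R m) * Q) + (n * (3 * (N0 / L)) + D * (2 * L ^ r * (3 * ((|c m| * R m) * N0) + N0 / L))) =
        (3 * ρ * N0 * ((|c m| * R m) * Q) + n * (3 * (N0 / L))) + D * (2 * L ^ r * (3 * ((|c m| * R m) * N0) + N0 / L)) := by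
      ring
    rw [e2]
    apply add_le_add
    · calc ∑ m' ∈ M.filter (fun m' => Apart (t m) (t m')), (c m * c m') * Y m m'
          ≤ ∑ m' ∈ M.filter (fun m' => Apart (t m) (t m')),
            (3 * ρ * N0 * ((|c m| * R m) * (|c m'| * R m')) + 3 * (N0 / L)) := by
            apply sum_le_sum
            intro m' hm'
            rw [mem_filter] at hm'
            refine (hb m').trans ?_
            have a1 := hgood m hm m' hm'.1 hm'.2
            have a2 : 0 ≤ |c m| * |c m'| := by positivity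
            have a3 : |c m| * |c m'| ≤ 1 := mul_le_one₀ (hc m) (abs_nonneg _) (hc m')
            have a4 := mul_le_mul_of_nonneg_left a1 a2
            have a5 : |c m| * |c m'| * (3 * (N0 / L)) ≤ 1 * (3 * (N0 / L)) := mul_le_mul_of_nonneg_right a3 hpos
            linarith
        _ ≤ ∑ m' ∈ M, (3 * ρ * N0 * ((|c m| * R m) * (|c m'| * R m')) + 3 * (N0 / L)) := by
            apply sum_le_sum_of_subset_of_nonneg (filter_subset _ _)
            intro m' _ _
            have := hR0 m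
            have := hR0 m'
            positivity
        _ = _ := by
            rw [sum_add_distrib, ← mul_sum, ← mul_sum, sum_const, nsmul_eq_mul]
    · calc ∑ m' ∈ M.filter (fun m' => ¬ Apart (t m) (t m')), (c m * c m') * Y m m'
          ≤ ∑ _m' ∈ M.filter (fun m' => ¬ Apart (t m) (t m')), (2 * L ^ r * (3 * ((|c m| * R m) * N0) + N0 / L)) := by
            apply sum_le_sum
            intro m' hm'
            rw [mem_filter] at hm'
            refine (hb m').trans ?_
            have a1 := hbad m hm m' hm'.1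
            have a6 : |c m| * |c m'| * |Y m m'| ≤ |c m| * 1 * |Y m m'| := by
              apply mul_le_mul_of_nonneg_right _ (abs_nonneg _)
              exact mul_le_mul_of_nonneg_left (hc m') (abs_nonneg _)
            have a7 : |c m| * 1 * |Y m m'| ≤ |c m| * 1 * (2 * L ^ r * (3 * (R m * N0) + N0 / L)) :=
              mul_le_mul_of_nonneg_left a1 (by positivity)
            have a8 : |c m| * (2 * L ^ r * (N0 / L)) ≤ 1 * (2 * L ^ r * (N0 / L)) :=
              mul_le_mul_of_nonneg_right (hc m) (by positivity)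
            linarith
        _ = ((M.filter (fun m' => ¬ Apart (t m) (t m'))).card : ℝ) * (2 * L ^ r * (3 * ((|c m| * R m) * N0) + N0 / L)) := by
            rw [sum_const, nsmul_eq_mul]
        _ ≤ D * (2 * L ^ r * (3 * ((|c m| * R m) * N0) + N0 / L)) := by
            have := hR0 m
            apply mul_le_mul_of_nonneg_right _ (by positivity)
            exact_mod_cast hD m hm
  have hε3 : 0 < ε ^ 3 := by positivity
  have htotal : ∑ v ∈ C, G v ^ 2 ≤ ε ^ 3 * (n + Q) ^ 2 * N0 := by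
    have b1 : ∑ v ∈ C, G v ^ 2 ≤ 3 * ρ * N0 * (Q * Q) + n * (n * (3 * (N0 / L))) +
        D * (2 * L ^ r * (3 * (Q * N0) + n * (N0 / L))) := by
      rw [hexpand]
      refine (sum_le_sum hrow).trans (le_of_eq ?_)
      rw [sum_add_distrib, sum_add_distrib, ← mul_sum, ← sum_mul, sum_const, nsmul_eq_mul, ← mul_sum, ← mul_sum,
        sum_add_distrib, ← mul_sum, ← sum_mul, sum_const, nsmul_eq_mul]
    have b2 : 3 * ρ * N0 * (Q * Q) ≤ ε ^ 3 / 4 * ((n + Q) ^ 2 * N0) := by
      have c1 : 3 * ρ ≤ ε ^ 3 / 4 := by linarith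
      have c2 : Q * Q ≤ (n + Q) ^ 2 := by nlinarith
      calc 3 * ρ * N0 * (Q * Q) = (3 * ρ) * (Q * Q * N0) := by ring
        _ ≤ (ε ^ 3 / 4) * ((n + Q) ^ 2 * N0) := by gcongr
    have b3 : n * (n * (3 * (N0 / L))) ≤ ε ^ 3 / 4 * ((n + Q) ^ 2 * N0) := by
      have c1 : 3 / L ≤ ε ^ 3 / 4 := by
        rw [div_le_iff₀ hε3] at hLε
        rw [div_le_iff₀ hL0]
        linarith
      have c2 : n * n ≤ (n + Q) ^ 2 := by nlinarith
      calc n * (n * (3 * (N0 / L))) = (3 / L) * (n * n * N0) := by ring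
        _ ≤ (ε ^ 3 / 4) * ((n + Q) ^ 2 * N0) := by gcongr
    have b4 : (D : ℝ) * (2 * L ^ r * (3 * (Q * N0) + n * (N0 / L))) ≤ ε ^ 3 / 4 * ((n + Q) ^ 2 * N0) := by
      have c0 : (D : ℝ) * L ^ r ≤ ε ^ 3 / 24 * n := by
        have c2 : ε ^ 3 / 24 * ((24 * (D : ℝ) / ε ^ 3) * L ^ r) ≤ ε ^ 3 / 24 * n :=
          mul_le_mul_of_nonneg_left hAn (by positivity)
        have c3 : ε ^ 3 / 24 * ((24 * (D : ℝ) / ε ^ 3) * L ^ r) = D * L ^ r := by field_simp
        linarith
      have c4 : N0 / L ≤ N0 := div_le_self hN00 (by linarith)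
      have c5 : 3 * (Q * N0) + n * (N0 / L) ≤ 3 * ((n + Q) * N0) := by
        have : n * (N0 / L) ≤ n * N0 := mul_le_mul_of_nonneg_left c4 (by linarith)
        have : 0 ≤ n * N0 := by positivity
        nlinarith
      calc (D : ℝ) * (2 * L ^ r * (3 * (Q * N0) + n * (N0 / L))) = (D * L ^ r) * (2 * (3 * (Q * N0) + n * (N0 / L))) := by ring
        _ ≤ (ε ^ 3 / 24 * n) * (2 * (3 * ((n + Q) * N0))) := by gcongr
        _ = ε ^ 3 / 4 * (n * (n + Q) * N0) := by ring
        _ ≤ ε ^ 3 / 4 * ((n + Q) ^ 2 * N0) := by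
            apply mul_le_mul_of_nonneg_left _ (by positivity)
            apply mul_le_mul_of_nonneg_right _ hN00
            nlinarith
    have b5 : 0 ≤ ε ^ 3 / 4 * ((n + Q) ^ 2 * N0) := by positivity
    linarith
  -- Chebyshev
  set Bd := C.filter (fun v => ¬ |G v| ≤ ε * (n + Q)) with hBd
  have hnQ : 0 < n + Q := by linarith
  have hcheb : (Bd.card : ℝ) * (ε ^ 2 * (n + Q) ^ 2) ≤ (ε * N0) * (ε ^ 2 * (n + Q) ^ 2) := by
    calc (Bd.card : ℝ) * (ε ^ 2 * (n + Q) ^ 2) = ∑ _v ∈ Bd, ε ^ 2 * (n + Q) ^ 2 := by rw [sum_const, nsmul_eq_mul]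
      _ ≤ ∑ v ∈ Bd, G v ^ 2 := by
          apply sum_le_sum
          intro v hv
          rw [hBd, mem_filter, not_le] at hv
          rw [← sq_abs (G v), ← mul_pow]
          exact pow_le_pow_left₀ (by positivity) hv.2.le 2
      _ ≤ ∑ v ∈ C, G v ^ 2 := sum_le_sum_of_subset_of_nonneg (filter_subset _ _) (fun v _ _ => sq_nonneg _)
      _ ≤ ε ^ 3 * (n + Q) ^ 2 * N0 := htotal
      _ = _ := by ring
  exact le_of_mul_le_mul_right hcheb (by positivity)

end Pool.Agent.Helper32K9.QB
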