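import Pool.Agent.Helper32K9.QB.Gen2

/-!
# The weights in terms of elementary definitions
-/

set_option autoImplicit false

namespace Pool.Agent.Helper32K9.QB

open Finset Filter Pool.Agent.Helper82K9.PR Pool.Agent.Helper32K9.QA

lemma primorial_eq' (z : ℕ) : primorial z = ∏ q ∈ (Icc 1 z).filter Nat.Prime, q := by
  unfold primorial
  apply prod_congr _ (fun _ _ => rfl)
  ext q
  rw [mem_filter, mem_filter, mem_range, mem_Icc]
  constructor
  · rintro ⟨h1, h2⟩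
    exact ⟨⟨h2.one_le, by omega⟩, h2⟩
  · rintro ⟨h1, h2⟩
    exact ⟨by omega, h2⟩

lemma Fr_eq {r d : ℕ} (L : ℝ) (t : Fin r → ℕ) (v : Fin (d + 1) → ℤ) [Decidable (∀ i, (pv v (t i)).natAbs.Prime)] :
    Fr L t v = if (∀ i, (pv v (t i)).natAbs.Prime) then L ^ r else 0 := by
  unfold Fr om
  by_cases h : ∀ i, (pv v (t i)).natAbs.Prime
  · rw [if_pos h]
    have : ∀ a ∈ (univ : Finset (Fin r)), (if (pv v (t a)).natAbs.Prime then L else 0) = L := fun a _ => if_pos (h a)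
    rw [prod_congr rfl this]
    simp
  · rw [if_neg h]
    push Not at h
    obtain ⟨i, hi⟩ := h
    exact prod_eq_zero (mem_univ i) (if_neg hi)

lemma gcd_iff (z : ℕ) (u : ℤ) :
    Int.gcd u ((primorial z : ℕ) : ℤ) = 1 ↔ ∀ q ∈ (Icc 1 z).filter Nat.Prime, ¬ (q : ℤ) ∣ u := by
  rw [Int.gcd_def, Int.natAbs_natCast, Pool.Agent.Helper82K9.PR.primes_eq]
  constructor
  · intro h1 q hq hqu
    rw [Nat.mem_primesLE] at hq
    have h2 : q ∣ Nat.gcd u.natAbs (primorial z) :=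
      Nat.dvd_gcd (Int.natCast_dvd.1 hqu) (hq.2.dvd_primorial_iff.2 hq.1)
    rw [h1] at h2
    exact hq.2.one_lt.ne' (Nat.dvd_one.1 h2)
  · intro h1
    by_contra hcon
    obtain ⟨q, hq, hqd⟩ := Nat.exists_prime_and_dvd hcon
    have h2 := hqd.trans (Nat.gcd_dvd_left _ _)
    have h3 := hqd.trans (Nat.gcd_dvd_right _ _)
    exact h1 q (Nat.mem_primesLE.2 ⟨hq.dvd_primorial_iff.1 h3, hq⟩) (Int.natCast_dvd.2 h2)

lemma Rr_eq {r d : ℕ} (z : ℕ) (t : Fin r → ℕ) (v : Fin (d + 1) → ℤ)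
    [Decidable (∀ i, ∀ q ∈ (Icc 1 z).filter Nat.Prime, ¬ (q : ℤ) ∣ pv v (t i))] :
    Rr z t v = if (∀ i, ∀ q ∈ (Icc 1 z).filter Nat.Prime, ¬ (q : ℤ) ∣ pv v (t i)) then
      ∏ q ∈ (Icc 1 z).filter Nat.Prime, ((1 - 1 / (q : ℝ)) ^ r)⁻¹ else 0 := by
  unfold Rr MM
  by_cases hall : ∀ i, ∀ q ∈ (Icc 1 z).filter Nat.Prime, ¬ (q : ℤ) ∣ pv v (t i)
  · rw [if_pos hall]
    have h1 : ∀ i ∈ (univ : Finset (Fin r)), (if Int.gcd (pv v (t i)) ((primorial z : ℕ) : ℤ) = 1 then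
        (primorial z : ℝ) / Nat.totient (primorial z) else 0) = Cz z := by
      intro i _
      have h2 := (gcd_iff z (pv v (t i))).2 (hall i)
      exact Eq.trans (if_pos h2) rfl
    rw [prod_congr rfl h1, prod_const, card_univ, Fintype.card_fin, Cz_eq, ← prod_pow]
    apply prod_congr rfl
    intro q _
    rw [inv_pow]
  · rw [if_neg hall]
    push Not at hall
    obtain ⟨i, q, hq, hqd⟩ := hall
    apply prod_eq_zero (mem_univ i)
    apply if_neg
    intro h1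
    exact (gcd_iff z _).1 h1 q hq hqd

end Pool.Agent.Helper32K9.QB
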